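import Mathlib
import Pool.Agent.H759R2.Kad.Props

open scoped ComplexOrder InnerProductSpace ComplexConjugate
open Finset

noncomputable section

namespace H759R2.Kad

universe u v

theorem det_orth (N : ℕ) (hN : 0 < N) : ∃ z : ℕ → ℂ, (∀ r, ‖z r‖ = 1) ∧
    ∀ a b, a < N → b < N →
      ∑ r ∈ range N, conj (z r ^ a) * z r ^ b = if a = b then (N : ℂ) else 0 := by
  set ζ : ℂ := Complex.exp (2 * Real.pi * Complex.I / N) with hζdef
  have hζ : IsPrimitiveRoot ζ N := Complex.isPrimitiveRoot_exp N hN.ne'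
  have hn : ‖ζ‖ = 1 := hζ.norm'_eq_one hN.ne'
  refine ⟨fun r => ζ ^ r, fun r => by simp [hn], fun a b ha hb => ?_⟩
  have h1 : ∀ r : ℕ, conj ((ζ ^ r) ^ a) * (ζ ^ r) ^ b = (conj ζ ^ a * ζ ^ b) ^ r := by
    intro r
    rw [map_pow, map_pow, mul_pow, ← pow_mul, ← pow_mul, ← pow_mul, ← pow_mul, mul_comm r a,
      mul_comm r b]
  simp_rw [h1]
  have hcc : conj ζ * ζ = 1 := by
    rw [mul_comm, Complex.mul_conj, Complex.normSq_eq_norm_sq, hn]
    simp
  by_cases hab : a = b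
  · subst hab
    rw [if_pos rfl, ← mul_pow, hcc]
    simp
  · rw [if_neg hab]
    have hx : conj ζ ^ a * ζ ^ b ≠ 1 := by
      intro h
      apply hab
      apply hζ.pow_inj ha hb
      have h2 : ζ ^ a * (conj ζ ^ a * ζ ^ b) = ζ ^ a := by rw [h, mul_one]
      rw [← mul_assoc, ← mul_pow, mul_comm ζ, hcc, one_pow, one_mul] at h2
      exact h2.symm
    rw [geom_sum_eq hx]
    have h3 : (conj ζ ^ a * ζ ^ b) ^ N = 1 := by
      rw [mul_pow, ← pow_mul, ← pow_mul, mul_comm a, mul_comm b, pow_mul, pow_mul, ← map_pow,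
        hζ.pow_eq_one]
      simp
    rw [h3]
    simp

theorem det_count1 (h : ℕ → ℝ) (hh : ∀ k, 0 ≤ h k) (M L n : ℕ) (hML : M ≤ L) :
    ∑ m ∈ range M, (if n < m then h (m - n) else 0) ≤ ∑ k ∈ range L, h (k + 1) := by
  rw [← sum_filter]
  have h1 : ∑ m ∈ (range M).filter (fun m => n < m), h (m - n) =
      ∑ k ∈ ((range M).filter (fun m => n < m)).image (fun m => m - n - 1), h (k + 1) := by
    rw [sum_image]
    · apply sum_congr rfl
      intro m hm
      rw [mem_filter] at hm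
      congr 1
      omega
    · intro x hx y hy hxy
      simp only [coe_filter, mem_range, Set.mem_ofPred_eq] at hx hy hxy
      omega
  rw [h1]
  apply sum_le_sum_of_subset_of_nonneg
  · intro k hk
    simp only [mem_image, mem_filter, mem_range] at hk ⊢
    obtain ⟨m, ⟨h1, h2⟩, h3⟩ := hk
    omega
  · intro k _ _
    exact hh _

theorem det_count2 (h : ℕ → ℝ) (hh : ∀ k, 0 ≤ h k) (M L n : ℕ) (hML : M ≤ L) (hn : n < M) :
    ∑ m ∈ range M, (if m < n then h (n - m) else 0) ≤ ∑ k ∈ range L, h (k + 1) := by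
  rw [← sum_filter]
  have h1 : ∑ m ∈ (range M).filter (fun m => m < n), h (n - m) =
      ∑ k ∈ ((range M).filter (fun m => m < n)).image (fun m => n - m - 1), h (k + 1) := by
    rw [sum_image]
    · apply sum_congr rfl
      intro m hm
      rw [mem_filter] at hm
      congr 1
      omega
    · intro x hx y hy hxy
      simp only [coe_filter, mem_range, Set.mem_ofPred_eq] at hx hy hxy
      omega
  rw [h1]
  apply sum_le_sum_of_subset_of_nonneg
  · intro k hk
    simp only [mem_image, mem_filter, mem_range] at hk ⊢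
    obtain ⟨m, ⟨h1, h2⟩, h3⟩ := hk
    omega
  · intro k _ _
    exact hh _

theorem det_pars {K : Type v} [NormedAddCommGroup K] [InnerProductSpace ℂ K] (N Q : ℕ)
    (c : ℕ → ℕ → ℂ) (w : ℕ → K)
    (hc : ∀ p ∈ range Q, ∀ q ∈ range Q,
      ∑ r ∈ range N, conj (c r p) * c r q = if p = q then (N : ℂ) else 0) :
    ∑ r ∈ range N, ‖∑ p ∈ range Q, c r p • w p‖ ^ 2 = N * ∑ p ∈ range Q, ‖w p‖ ^ 2 := by
  have h1 : ((∑ r ∈ range N, ‖∑ p ∈ range Q, c r p • w p‖ ^ 2 : ℝ) : ℂ) =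
      ((N * ∑ p ∈ range Q, ‖w p‖ ^ 2 : ℝ) : ℂ) := by
    have h2 : ∀ r ∈ range N, (((‖∑ p ∈ range Q, c r p • w p‖ ^ 2 : ℝ)) : ℂ) =
        ∑ p ∈ range Q, ∑ q ∈ range Q, (conj (c r p) * c r q) * ⟪w p, w q⟫_ℂ := by
      intro r _
      have h3 : (((‖∑ p ∈ range Q, c r p • w p‖ ^ 2 : ℝ)) : ℂ) =
          ⟪∑ p ∈ range Q, c r p • w p, ∑ p ∈ range Q, c r p • w p⟫_ℂ := by
        rw [inner_self_eq_norm_sq_to_K]
        simp
      rw [h3, sum_inner]
      refine sum_congr rfl fun p _ => ?_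
      rw [inner_sum]
      refine sum_congr rfl fun q _ => ?_
      rw [inner_smul_left, inner_smul_right, mul_assoc]
    rw [Complex.ofReal_sum, sum_congr rfl h2, sum_comm, Complex.ofReal_mul, Complex.ofReal_sum,
      mul_sum]
    refine sum_congr rfl fun p hp => ?_
    rw [sum_comm]
    have h4 : ∀ q ∈ range Q, ∑ r ∈ range N, (conj (c r p) * c r q) * ⟪w p, w q⟫_ℂ =
        if p = q then (N : ℂ) * ⟪w p, w q⟫_ℂ else 0 := by
      intro q hq
      rw [← sum_mul, hc p hp q hq]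
      split_ifs <;> simp
    rw [sum_congr rfl h4, sum_ite_eq, if_pos hp, inner_self_eq_norm_sq_to_K]
    simp
  exact_mod_cast h1

theorem prove_det : St_det.{u, v} := by
  intro B _ _ _ K _ _ _ π D hD t ht ht1 a b ha hb hX U hU θ hθ Q hQ
  obtain ⟨z, hz1, hz⟩ := det_orth (2 * Q) (by omega)
  have hUU : star U * U = 1 := (Unitary.mem_iff.1 hU).1
  have hUU' : U * star U = 1 := (Unitary.mem_iff.1 hU).2
  have hpow : ∀ n : ℕ, star (U ^ n) * U ^ n = 1 := by
    intro n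
    exact (Unitary.mem_iff.1 (pow_mem hU n)).1
  have hpow' : ∀ n : ℕ, U ^ n * star (U ^ n) = 1 := by
    intro n
    exact (Unitary.mem_iff.1 (pow_mem hU n)).2
  have hnormU : ∀ n : ℕ, ‖U ^ n‖ ≤ 1 := by
    intro n
    rcases subsingleton_or_nontrivial B with hs | hs
    · rw [Subsingleton.elim (U ^ n) 0]
      simp
    · exact (CStarRing.norm_of_mem_unitary (pow_mem hU n)).le
  have hin : ∀ V : B, star V * V = 1 → ∀ x y : K, ⟪π V x, π V y⟫_ℂ = ⟪x, y⟫_ℂ := by
    intro V hV x y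
    have h1 : (π V).adjoint (π V y) = y := by
      rw [← ContinuousLinearMap.star_eq_adjoint, ← map_star, ← mul_apply_eq_comp,
        ← map_mul, hV, map_one]
      rfl
    rw [← ContinuousLinearMap.adjoint_inner_right (π V) x (π V y), h1]
  have hiso : ∀ V : B, star V * V = 1 → ∀ x : K, ‖π V x‖ = ‖x‖ := by
    intro V hV x
    have h1 := hin V hV x x
    rw [inner_self_eq_norm_sq_to_K, inner_self_eq_norm_sq_to_K] at h1
    have h2 : ‖π V x‖ ^ 2 = ‖x‖ ^ 2 := by exact_mod_cast h1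
    exact (pow_left_inj₀ (norm_nonneg _) (norm_nonneg _) two_ne_zero).1 h2
  have hQ0 : (0 : ℝ) < Q := by exact_mod_cast hQ
  -- the vectors
  set av : ℕ → K := fun p => π (U ^ p) θ with hav
  set bv : ℕ → K := fun q => π (star U ^ (q + 1)) θ with hbv
  have hav1 : ∀ p, ‖av p‖ = 1 := by
    intro p
    rw [hav]
    simp only
    rw [hiso _ (hpow p), hθ]
  have hbv1 : ∀ q, ‖bv q‖ = 1 := by
    intro q
    rw [hbv]
    simp only
    rw [← star_pow, hiso _ (by rw [star_star]; exact hpow' _), hθ]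
  set η : ℕ → K := fun r => ∑ p ∈ range Q, z r ^ p • av p with hη
  set ξ : ℕ → K := fun r => ∑ q ∈ range Q, conj (z r ^ (q + 1)) • bv q with hξ
  set X : ℕ → B := fun r => ∑ n ∈ range (2 * Q - 1), z r ^ (n + 1) • U ^ (n + 1) with hXdef
  have hηs : ∑ r ∈ range (2 * Q), ‖η r‖ ^ 2 = (2 * Q : ℕ) * (Q : ℝ) := by
    have h1 := det_pars (2 * Q) Q (fun r p => z r ^ p) av (by
      intro p hp q hq
      rw [mem_range] at hp hq
      exact hz p q (by omega) (by omega))
    rw [hη]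
    simp only
    rw [h1]
    simp [hav1]
  have hξs : ∑ r ∈ range (2 * Q), ‖ξ r‖ ^ 2 = (2 * Q : ℕ) * (Q : ℝ) := by
    have h1 := det_pars (2 * Q) Q (fun r q => conj (z r ^ (q + 1))) bv (by
      intro p hp q hq
      rw [mem_range] at hp hq
      have h2 := hz (q + 1) (p + 1) (by omega) (by omega)
      have h3 : ∀ r ∈ range (2 * Q), conj (conj (z r ^ (p + 1))) * conj (z r ^ (q + 1)) =
          conj (z r ^ (q + 1)) * z r ^ (p + 1) := by
        intro r _
        rw [Complex.conj_conj, mul_comm]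
      rw [sum_congr rfl h3, h2]
      by_cases hpq : p = q
      · rw [if_pos hpq, if_pos (by omega)]
      · rw [if_neg hpq, if_neg (by omega)])
    rw [hξ]
    simp only
    rw [h1]
    simp [hbv1]
  set S : ℂ := (∑ p ∈ range Q, ⟪π (U ^ p) θ, D (U ^ p) θ⟫_ℂ) +
        ∑ q ∈ range Q, ⟪θ, D (U ^ (q + 1)) (π (star U ^ (q + 1)) θ)⟫_ℂ with hS
  -- the mixed sum
  have hmix : ∑ r ∈ range (2 * Q), ⟪η r, D (X r) (ξ r)⟫_ℂ = ((2 * Q : ℕ) : ℂ) * (Q * S) := by
    have h1 : ∀ r ∈ range (2 * Q), ⟪η r, D (X r) (ξ r)⟫_ℂ =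
        ∑ p ∈ range Q, ∑ q ∈ range Q, ∑ n ∈ range (2 * Q - 1),
          (conj (z r ^ (p + q + 1)) * z r ^ (n + 1)) * ⟪av p, D (U ^ (n + 1)) (bv q)⟫_ℂ := by
      intro r _
      rw [hη, hξ, hXdef]
      simp only [map_sum, map_smul]
      rw [sum_inner]
      refine sum_congr rfl fun p _ => ?_
      rw [inner_sum]
      refine sum_congr rfl fun q _ => ?_
      rw [inner_smul_left, inner_smul_right, _root_.sum_apply, inner_sum, mul_sum, mul_sum]
      refine sum_congr rfl fun n _ => ?_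
      rw [smul_apply, inner_smul_right, add_assoc p q 1, pow_add (z r) p, map_mul]
      ring
    rw [sum_congr rfl h1, sum_comm]
    have h2 : ∀ p ∈ range Q, ∑ r ∈ range (2 * Q), ∑ q ∈ range Q, ∑ n ∈ range (2 * Q - 1),
          (conj (z r ^ (p + q + 1)) * z r ^ (n + 1)) * ⟪av p, D (U ^ (n + 1)) (bv q)⟫_ℂ =
        ∑ q ∈ range Q, ((2 * Q : ℕ) : ℂ) *
          (⟪θ, D (U ^ (q + 1)) (π (star U ^ (q + 1)) θ)⟫_ℂ + ⟪π (U ^ p) θ, D (U ^ p) θ⟫_ℂ) := by
      intro p hp
      rw [sum_comm]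
      refine sum_congr rfl fun q hq => ?_
      rw [sum_comm]
      rw [mem_range] at hp hq
      have h3 : ∀ n ∈ range (2 * Q - 1), ∑ r ∈ range (2 * Q),
          (conj (z r ^ (p + q + 1)) * z r ^ (n + 1)) * ⟪av p, D (U ^ (n + 1)) (bv q)⟫_ℂ =
          if p + q = n then ((2 * Q : ℕ) : ℂ) * ⟪av p, D (U ^ (n + 1)) (bv q)⟫_ℂ else 0 := by
        intro n hn
        rw [mem_range] at hn
        rw [← sum_mul, hz (p + q + 1) (n + 1) (by omega) (by omega)]
        by_cases hpq : p + q = n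
        · rw [if_pos hpq, if_pos (by omega)]
        · rw [if_neg hpq, if_neg (by omega), zero_mul]
      rw [sum_congr rfl h3, sum_ite_eq, if_pos (by rw [mem_range]; omega)]
      congr 1
      rw [add_assoc p q 1, pow_add, hD.leib, add_apply, inner_add_right,
        mul_apply_eq_comp, mul_apply_eq_comp]
      congr 1
      · rw [hav, hbv]
        simp only
        rw [hin _ (hpow p)]
      · have h4 : π (U ^ (q + 1)) (bv q) = θ := by
          rw [hbv]
          simp only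
          rw [← mul_apply_eq_comp, ← map_mul, ← star_pow, hpow', map_one]
          rfl
        rw [h4]
    rw [sum_congr rfl h2]
    simp_rw [← mul_sum, sum_add_distrib]
    rw [sum_const, card_range, sum_comm, sum_const, card_range, hS]
    simp only [nsmul_eq_mul]
    ring
  -- bounds for `X r`
  set C : ℝ := 2 * Q * (t 1).re + 4 * Q * ∑ k ∈ range (2 * Q), ‖t (U ^ (k + 1))‖ with hC
  have hXn : ∀ r, ‖X r‖ ≤ 2 * Q := by
    intro r
    rw [hXdef]
    simp only
    refine (norm_sum_le _ _).trans ?_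
    have h1 : ∑ n ∈ range (2 * Q - 1), ‖z r ^ (n + 1) • U ^ (n + 1)‖ ≤
        ∑ n ∈ range (2 * Q - 1), (1 : ℝ) := by
      refine sum_le_sum fun n _ => ?_
      rw [norm_smul, norm_pow, hz1, one_pow, one_mul]
      exact hnormU _
    refine h1.trans ?_
    rw [sum_const, card_range, nsmul_eq_mul, mul_one]
    have h2 : ((2 * Q - 1 : ℕ) : ℝ) ≤ ((2 * Q : ℕ) : ℝ) := by
      exact_mod_cast Nat.sub_le _ _
    refine h2.trans ?_
    push_cast
    exact le_refl _
  have hXt : ∀ r, (t (star (X r) * X r)).re ≤ C := by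
    intro r
    have h1 : t (star (X r) * X r) = ∑ n ∈ range (2 * Q - 1), ∑ m ∈ range (2 * Q - 1),
        (conj (z r ^ (n + 1)) * z r ^ (m + 1)) * t (star (U ^ (n + 1)) * U ^ (m + 1)) := by
      rw [hXdef]
      simp only
      rw [star_sum, sum_mul_sum, map_sum]
      refine sum_congr rfl fun n _ => ?_
      rw [map_sum]
      refine sum_congr rfl fun m _ => ?_
      rw [star_smul, smul_mul_smul_comm, map_smul, smul_eq_mul]
      rfl
    have hzz : ∀ n, conj (z r ^ n) * z r ^ n = 1 := by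
      intro n
      rw [mul_comm, Complex.mul_conj, Complex.normSq_eq_norm_sq, norm_pow, hz1]
      simp
    have hnz : ∀ n m, ‖conj (z r ^ n) * z r ^ m‖ = 1 := by
      intro n m
      rw [norm_mul, Complex.norm_conj, norm_pow, norm_pow, hz1]
      simp
    have h2 : ∀ n m, ((conj (z r ^ (n + 1)) * z r ^ (m + 1)) *
        t (star (U ^ (n + 1)) * U ^ (m + 1))).re ≤
        (if n = m then (t 1).re else 0) +
        ((if n < m then ‖t (U ^ (m - n))‖ else 0) + (if m < n then ‖t (U ^ (n - m))‖ else 0)) := by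
      intro n m
      rcases lt_trichotomy n m with h | h | h
      · rw [if_neg h.ne, if_pos h, if_neg h.not_gt, zero_add, add_zero]
        have h3 : star (U ^ (n + 1)) * U ^ (m + 1) = U ^ (m - n) := by
          have h4 : m + 1 = (n + 1) + (m - n) := by omega
          rw [h4, pow_add U (n + 1) (m - n), ← mul_assoc, hpow, one_mul]
        rw [h3]
        refine (Complex.re_le_norm _).trans ?_
        rw [norm_mul, hnz, one_mul]
      · subst h
        rw [if_pos rfl, if_neg (lt_irrefl _), hzz, hpow, one_mul, add_zero, add_zero]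
      · rw [if_neg h.ne', if_neg h.not_gt, if_pos h, zero_add, zero_add]
        have h3 : star (U ^ (n + 1)) * U ^ (m + 1) = star (U ^ (n - m)) := by
          have h4 : n + 1 = (m + 1) + (n - m) := by omega
          rw [h4, pow_add U (m + 1) (n - m), star_mul, mul_assoc, hpow, mul_one]
        rw [h3]
        refine (Complex.re_le_norm _).trans ?_
        rw [norm_mul, hnz, one_mul, ht, Complex.norm_conj]
    have hSg0 : 0 ≤ ∑ k ∈ range (2 * Q), ‖t (U ^ (k + 1))‖ := sum_nonneg fun _ _ => norm_nonneg _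
    have hM : ((2 * Q - 1 : ℕ) : ℝ) ≤ 2 * Q := by
      have h3 : ((2 * Q - 1 : ℕ) : ℝ) ≤ ((2 * Q : ℕ) : ℝ) := by
        exact_mod_cast Nat.sub_le _ _
      refine h3.trans ?_
      push_cast
      exact le_refl _
    rw [h1, Complex.re_sum]
    have h5 : ∀ n ∈ range (2 * Q - 1), (∑ m ∈ range (2 * Q - 1),
        (conj (z r ^ (n + 1)) * z r ^ (m + 1)) * t (star (U ^ (n + 1)) * U ^ (m + 1))).re ≤
        (t 1).re + 2 * ∑ k ∈ range (2 * Q), ‖t (U ^ (k + 1))‖ := by
      intro n hn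
      rw [Complex.re_sum]
      refine (sum_le_sum fun m _ => h2 n m).trans ?_
      rw [sum_add_distrib, sum_add_distrib, sum_ite_eq, if_pos hn]
      have h6 := det_count1 (fun k => ‖t (U ^ k)‖) (fun k => norm_nonneg _) (2 * Q - 1) (2 * Q) n
        (by omega)
      have h7 := det_count2 (fun k => ‖t (U ^ k)‖) (fun k => norm_nonneg _) (2 * Q - 1) (2 * Q) n
        (by omega) (mem_range.1 hn)
      linarith
    refine (sum_le_sum h5).trans ?_
    rw [sum_const, card_range, nsmul_eq_mul, hC]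
    have h8 : ((2 * Q - 1 : ℕ) : ℝ) * ((t 1).re + 2 * ∑ k ∈ range (2 * Q), ‖t (U ^ (k + 1))‖) ≤
        (2 * Q) * ((t 1).re + 2 * ∑ k ∈ range (2 * Q), ‖t (U ^ (k + 1))‖) :=
      mul_le_mul_of_nonneg_right hM (by positivity)
    refine h8.trans (le_of_eq ?_)
    ring
  have hC0 : 0 ≤ C := by
    rw [hC]
    have hSg0 : 0 ≤ ∑ k ∈ range (2 * Q), ‖t (U ^ (k + 1))‖ := sum_nonneg fun _ _ => norm_nonneg _
    positivity
  have hE : ∀ r ∈ range (2 * Q), ‖D (X r) (ξ r)‖ ^ 2 ≤ ‖ξ r‖ ^ 2 * (4 * Q ^ 2 * a + b * C) := by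
    intro r _
    refine (hX (X r) (ξ r)).trans ?_
    apply mul_le_mul_of_nonneg_left _ (sq_nonneg _)
    have h1 : ‖X r‖ ^ 2 ≤ (2 * (Q : ℝ)) ^ 2 := pow_le_pow_left₀ (norm_nonneg _) (hXn r) 2
    have h2 := mul_le_mul_of_nonneg_left h1 ha
    have h3 := mul_le_mul_of_nonneg_left (hXt r) hb
    nlinarith
  have hE0 : 0 ≤ 4 * (Q : ℝ) ^ 2 * a + b * C := by positivity
  have hcs : ‖∑ r ∈ range (2 * Q), ⟪η r, D (X r) (ξ r)⟫_ℂ‖ ^ 2 ≤
      (((2 * Q : ℕ) : ℝ) * Q) * ((((2 * Q : ℕ) : ℝ) * Q) * (4 * Q ^ 2 * a + b * C)) := by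
    have h1 : ‖∑ r ∈ range (2 * Q), ⟪η r, D (X r) (ξ r)⟫_ℂ‖ ≤
        ∑ r ∈ range (2 * Q), ‖η r‖ * ‖D (X r) (ξ r)‖ :=
      (norm_sum_le _ _).trans (sum_le_sum fun r _ => norm_inner_le_norm _ _)
    have h2 := pow_le_pow_left₀ (norm_nonneg _) h1 2
    refine h2.trans ((sum_mul_sq_le_sq_mul_sq _ _ _).trans ?_)
    rw [hηs]
    apply mul_le_mul_of_nonneg_left _ (by positivity)
    refine (sum_le_sum hE).trans ?_
    rw [← sum_mul, hξs]
  rw [hmix, norm_mul, norm_mul, Complex.norm_natCast, Complex.norm_natCast] at hcs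
  have hQ2 : (0 : ℝ) < (((2 * Q : ℕ) : ℝ) * Q) ^ 2 := by positivity
  have h9 : (((2 * Q : ℕ) : ℝ) * Q) ^ 2 * ‖S‖ ^ 2 ≤
      (((2 * Q : ℕ) : ℝ) * Q) ^ 2 * (4 * Q ^ 2 * a + b * C) := by
    calc (((2 * Q : ℕ) : ℝ) * Q) ^ 2 * ‖S‖ ^ 2 = (((2 * Q : ℕ) : ℝ) * (Q * ‖S‖)) ^ 2 := by ring
      _ ≤ _ := hcs
      _ = _ := by ring
  exact le_of_mul_le_mul_left h9 hQ2

end H759R2.Kad
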